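import Pool.Agent.W2helper31.GP.Stm

/-!
Project GP (helper31), piece KAP: integrability of the logarithm of a Gaussian variable.
-/

set_option autoImplicit false

open MeasureTheory ProbabilityTheory
open scoped ENNReal NNReal

namespace Pool.Agent.W2helper24.GP

open Pool.Agent.W2helper31.GP

lemma pdf_le (x : ℝ) : gaussianPDFReal 0 1 x ≤ 2 / 5 := by
  unfold gaussianPDFReal
  have h1 : (5 / 2 : ℝ) ≤ Real.sqrt (2 * Real.pi * ((1 : ℝ≥0) : ℝ)) := by
    apply Real.le_sqrt_of_sq_le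
    have := Real.pi_gt_d2
    push_cast
    nlinarith
  have h2 : (Real.sqrt (2 * Real.pi * ((1 : ℝ≥0) : ℝ)))⁻¹ ≤ 2 / 5 := by
    rw [inv_le_comm₀ (by linarith) (by norm_num)]
    norm_num
    norm_num at h1
    exact h1
  have h3 : Real.exp (-(x - 0) ^ 2 / (2 * ((1 : ℝ≥0) : ℝ))) ≤ 1 := by
    rw [Real.exp_le_one_iff]
    have : 0 ≤ (x - 0) ^ 2 / (2 * ((1 : ℝ≥0) : ℝ)) := by positivity
    have e : -(x - 0) ^ 2 / (2 * ((1 : ℝ≥0) : ℝ)) = -((x - 0) ^ 2 / (2 * ((1 : ℝ≥0) : ℝ))) := by ring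
    rw [e]
    linarith
  calc _ ≤ (Real.sqrt (2 * Real.pi * ((1 : ℝ≥0) : ℝ)))⁻¹ * 1 :=
        mul_le_mul_of_nonneg_left h3 (by positivity)
    _ ≤ 2 / 5 := by rw [mul_one]; exact h2

lemma gauss_le : gaussianReal 0 1 ≤ ENNReal.ofReal (2 / 5) • (volume : Measure ℝ) := by
  rw [gaussianReal_of_var_ne_zero 0 one_ne_zero, ← withDensity_const]
  refine withDensity_mono (Filter.Eventually.of_forall fun x => ?_)
  exact ENNReal.ofReal_le_ofReal (pdf_le x)

lemma log_on : IntegrableOn Real.log (Set.Ioc (-1 : ℝ) 1) volume :=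
  (intervalIntegrable_iff_integrableOn_Ioc_of_le (by norm_num)).1 intervalIntegral.intervalIntegrable_log'

lemma gauss_restrict_le (S : Set ℝ) : (gaussianReal 0 1).restrict S ≤
    ENNReal.ofReal (2 / 5) • ((volume : Measure ℝ).restrict S) := by
  rw [← Measure.restrict_smul]
  exact Measure.restrict_mono subset_rfl gauss_le

lemma log_nonpos_on {x : ℝ} (hx : x ∈ Set.Ioc (-1 : ℝ) 1) : Real.log x ≤ 0 := by
  rw [← Real.log_abs]
  exact Real.log_nonpos (abs_nonneg x) (abs_le.2 ⟨hx.1.le, hx.2⟩)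

lemma log_out {x : ℝ} (hx : x ∉ Set.Ioc (-1 : ℝ) 1) : 0 ≤ Real.log x ∧ Real.log x ≤ x ^ 2 := by
  have h1 : 1 ≤ |x| := by
    by_contra h
    push Not at h
    have := abs_lt.1 h
    exact hx ⟨this.1, this.2.le⟩
  rw [← Real.log_abs, ← sq_abs]
  refine ⟨Real.log_nonneg h1, ?_⟩
  have h2 := Real.log_le_sub_one_of_pos (show 0 < |x| by linarith)
  nlinarith

lemma sq_int : Integrable (fun x : ℝ => x ^ 2) (gaussianReal 0 1) := by
  have h := memLp_id_gaussianReal (μ := 0) (v := 1) 2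
  exact h.integrable_sq

lemma int_S : IntegrableOn Real.log (Set.Ioc (-1 : ℝ) 1) (gaussianReal 0 1) := by
  have h : Integrable Real.log (ENNReal.ofReal (2 / 5) • ((volume : Measure ℝ).restrict (Set.Ioc (-1) 1))) :=
    log_on.smul_measure ENNReal.ofReal_ne_top
  exact h.mono_measure (gauss_restrict_le _)

lemma int_C : IntegrableOn Real.log (Set.Ioc (-1 : ℝ) 1)ᶜ (gaussianReal 0 1) := by
  refine (sq_int.integrableOn (s := (Set.Ioc (-1 : ℝ) 1)ᶜ)).mono'
    Real.measurable_log.aestronglyMeasurable ?_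
  filter_upwards [ae_restrict_mem measurableSet_Ioc.compl] with x hx
  have h := log_out hx
  rw [Real.norm_of_nonneg h.1]
  exact h.2

theorem p_KAP : P_KAP := by
  have hint : Integrable (fun x : ℝ => Real.log x) (gaussianReal 0 1) := by
    rw [← integrableOn_univ, ← Set.union_compl_self (Set.Ioc (-1 : ℝ) 1)]
    exact int_S.union int_C
  refine ⟨hint, ?_⟩
  have h1 : 0 ≤ ∫ x in (Set.Ioc (-1 : ℝ) 1)ᶜ, Real.log x ∂(gaussianReal 0 1) := by
    apply integral_nonneg_of_ae
    filter_upwards [ae_restrict_mem measurableSet_Ioc.compl] with x hx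
    exact (log_out hx).1
  have h2 : ∫ x in Set.Ioc (-1 : ℝ) 1, -Real.log x ∂(gaussianReal 0 1) ≤ 4 / 5 := by
    have h3 : ∫ x in Set.Ioc (-1 : ℝ) 1, -Real.log x ∂(gaussianReal 0 1) ≤
        ∫ x, -Real.log x ∂(ENNReal.ofReal (2 / 5) • ((volume : Measure ℝ).restrict (Set.Ioc (-1) 1))) := by
      refine integral_mono_measure (gauss_restrict_le _) ?_ ?_
      · refine Measure.ae_smul_measure ?_ _
        filter_upwards [ae_restrict_mem measurableSet_Ioc] with x hx
        have := log_nonpos_on hx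
        simp only [Pi.zero_apply]
        linarith
      · exact (log_on.smul_measure ENNReal.ofReal_ne_top).neg
    rw [integral_smul_measure, ENNReal.toReal_ofReal (by norm_num)] at h3
    have h4 : ∫ x in Set.Ioc (-1 : ℝ) 1, Real.log x = -2 := by
      rw [← intervalIntegral.integral_of_le (by norm_num), integral_log]
      norm_num
    have h4' : ∫ x in Set.Ioc (-1 : ℝ) 1, -Real.log x = 2 := by
      rw [integral_neg, h4, neg_neg]
    rw [h4'] at h3
    refine h3.trans ?_
    norm_num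
  have h5 : kap = 2 * ∫ x, Real.log x ∂(gaussianReal 0 1) := by
    unfold kap
    rw [integral_const_mul]
  have h6 := integral_add_compl (measurableSet_Ioc (a := (-1 : ℝ)) (b := 1)) hint
  rw [integral_neg] at h2
  rw [h5, ← h6]
  linarith

end Pool.Agent.W2helper24.GP
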